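import Mathlib
import Pool.Agent.Y793.Fin

/-!
Statements (NOT results) of the pieces of the project on alternating fibre powers of embedding
problems (owner helper793).
-/

set_option autoImplicit false

namespace Pool.Agent.Y793

open Pool.Agent.H391R2 Pool.Agent.H391R2.T4

section alt

variable {Γ E₀ : Type} [Group Γ] [Group E₀]

/-- The alternating fibre power of a homomorphism `α : E₀ → Γ`: the group of all `(x, ρ)` with
`x` in `E₀ ≀ A_n`, `ρ` in `Γ` and `α (x.left i) = ρ` for all `i`. -/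
def AltEP (α : E₀ →* Γ) (n : ℕ) : Subgroup (Wr E₀ n × Γ) :=
  SymEP α n ⊓ (AWr E₀ n).comap (MonoidHom.fst (Wr E₀ n) Γ)

/-- The projection `(x, ρ) ↦ ρ`. -/
def altProj (α : E₀ →* Γ) (n : ℕ) : AltEP α n →* Γ :=
  (MonoidHom.snd (Wr E₀ n) Γ).comp (AltEP α n).subtype

end alt

/-- ARIL: arithmetic assembly for the alternating fibre power, over a base field extension `L`. -/
def St_arithL : Prop :=
  ∀ (K L K₀ N : Type) [Field K] [CharZero K] [Field L] [Algebra K L] [FiniteDimensional K L]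
    [IsGalois K L] [Field K₀] [Algebra K K₀] [Algebra L K₀] [IsScalarTower K L K₀]
    [IsAlgClosed K₀] [Algebra.IsAlgebraic K K₀] [Field N] [IsAlgClosed N] [Algebra K₀ N]
    [Algebra K N] [Algebra L N] [IsScalarTower K K₀ N] [IsScalarTower L K₀ N]
    (ι : Type) [Finite ι] (η : ι → N), IsTranscendenceBasis K₀ η →
    ∀ (P : Type) [Group P] [Finite P] (α : P →* (L ≃ₐ[K] L)) (n : ℕ) (r : Fin n → N),
    Function.Injective r → ∀ (vv : Fin n → P → N), (∀ i, Function.Injective (vv i)) →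
    (∀ (σ : N ≃ₐ[K] N), (∀ v, σ (η v) = η v) → ∃ z ∈ AltEP α n,
      (∀ a : L, σ (algebraMap L N a) = algebraMap L N (z.2 a)) ∧ ∀ i,
        σ (r i) = r (z.1.right i) ∧
        ∀ g, σ (vv i g) = vv (z.1.right i) (z.1.left (z.1.right i) * g)) →
    (∀ x ∈ AWr P n, (∀ i, α (x.left i) = 1) → ∃ σ : N ≃ₐ[K₀] N, (∀ v, σ (η v) = η v) ∧ ∀ i,
        σ (r i) = r (x.right i) ∧
        ∀ g, σ (vv i g) = vv (x.right i) (x.left (x.right i) * g)) →
    RegSol K L (AltEP α n) (altProj α n)

/-- STARL: a point `t₀` of `K` which satisfies the condition of `St_star` over `L`. -/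
def St_starL : Prop :=
  ∀ (K L Z : Type) [Field K] [CharZero K] [Field L] [Algebra K L] [Field Z]
    [Algebra (RatFunc L) Z] [FiniteDimensional (RatFunc L) Z] [IsGalois (RatFunc L) Z],
    ∃ t₀ : K, ∀ (z : Z) (a : L), a ≠ 0 →
      z ^ 2 ≠ algebraMap (RatFunc L) Z (RatFunc.C a * (RatFunc.X - RatFunc.C (algebraMap K L t₀)))

/-- The main theorem of the project. -/
def St_mainL : Prop :=
  ∀ (K L : Type) [Field K] [CharZero K] [Field L] [Algebra K L] [FiniteDimensional K L]
    [IsGalois K L] (X : Type) [Group X] [Finite X] (π : X →* (L ≃ₐ[K] L)), RegSol K L X π →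
    ∀ P : Subgroup X, P.index = 2 → P.map π = ⊤ →
      (∀ H : Subgroup X, H = P ⊓ π.ker → commutator H = ⊤) →
    ∃ k₀ : ℕ, ∀ k ≥ k₀, RegSol K L (AltEP (π.comp P.subtype) (8 * k + 4))
      (altProj (π.comp P.subtype) (8 * k + 4))

end Pool.Agent.Y793
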