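import Mathlib
import Pool.Agent.Y793.Gr

/-!
Change of the base field in the family of functions (project of helper793).
-/

set_option autoImplicit false
set_option linter.unusedSectionVars false
set_option linter.unusedSimpArgs false

namespace Pool.Agent.Y793

open Polynomial Pool.Agent.H391R2

section bc

variable {K L : Type} [Field K] [CharZero K] [Field L] [Algebra K L]
variable {E : Type} [CommRing E] [Algebra K E] [Algebra L E] [IsScalarTower K L E]

theorem bc_inv (n : ℕ) : algebraMap L E ((n : L) + 1)⁻¹ = algebraMap K E ((n : K) + 1)⁻¹ := by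
  rw [IsScalarTower.algebraMap_apply K L E, map_inv₀ (algebraMap K L), map_add, map_natCast,
    map_one]

theorem adr_bc (p : E[X]) : adr L p = adr K p := by
  ext n
  rcases n with _ | n
  · rw [coeff_adr_zero, coeff_adr_zero]
  · rw [coeff_adr_succ, coeff_adr_succ, bc_inv (K := K)]

/-- The family over `L`. -/
noncomputable abbrev mpL (K L : Type) [Field K] [Field L] [Algebra K L] (p : K[X]) : L[X] :=
  p.map (algebraMap K L)

theorem mpL_map (p : K[X]) : (mpL K L p).map (algebraMap L E) = p.map (algebraMap K E) := by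
  rw [mpL, Polynomial.map_map, ← IsScalarTower.algebraMap_eq]

variable {ι : Type} [Fintype ι] (D : K[X]) (κ g u : ι → K[X])

theorem lin_bc (f : ι → K[X]) (v : ι ⊕ Bool → E) :
    lin (fun i => mpL K L (f i)) v = lin f v := by
  unfold lin
  refine Finset.sum_congr rfl fun i _ => ?_
  rw [mpL_map]

theorem nine_bc : algebraMap L E (9 / 4) = algebraMap K E (9 / 4) := by
  rw [IsScalarTower.algebraMap_apply K L E]
  congr 1
  rw [map_div₀, map_ofNat, map_ofNat]

theorem gin_bc (v v' : ι ⊕ Bool → E) :
    gin (mpL K L D) (fun i => mpL K L (κ i)) v v' = gin D κ v v' := by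
  have h1 : (X * derivative (X * mpL K L D) ^ 2 : L[X]) = mpL K L (X * derivative (X * D) ^ 2) := by
    simp only [mpL, Polynomial.map_mul, Polynomial.map_pow, map_X, ← derivative_map]
  unfold gin
  rw [lin_bc, lin_bc, h1, mpL_map, mpL_map, nine_bc (K := K)]

theorem XD_bc : (X * mpL K L D).map (algebraMap L E) = (X * D).map (algebraMap K E) := by
  rw [← mpL_map (K := K) (L := L) (X * D)]
  simp only [mpL, Polynomial.map_mul, map_X]

theorem FF_bc (v : ι ⊕ Bool → E) (w y : E) :
    FF (mpL K L D) (fun i => mpL K L (κ i)) (fun i => mpL K L (g i)) (fun i => mpL K L (u i))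
      v w y = FF D κ g u v w y := by
  unfold FF
  rw [gin_bc, XD_bc, lin_bc, lin_bc, adr_bc (K := K)]

theorem PA_bc (v : ι ⊕ Bool → E) (T : E) :
    PA (mpL K L D) (fun i => mpL K L (κ i)) (fun i => mpL K L (g i)) v T = PA D κ g v T := by
  unfold PA
  rw [gin_bc, XD_bc, lin_bc, adr_bc (K := K)]

theorem PB_bc (v : ι ⊕ Bool → E) :
    PB (mpL K L D) (fun i => mpL K L (u i)) v = PB D u v := by
  unfold PB
  rw [XD_bc, lin_bc]

theorem PP_bc (v : ι ⊕ Bool → E) (T : E) :
    PP (mpL K L D) (fun i => mpL K L (κ i)) (fun i => mpL K L (g i)) (fun i => mpL K L (u i)) v T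
      = PP D κ g u v T := by
  unfold PP
  rw [PA_bc, PB_bc, mpL_map]

end bc

section bcf

variable {K L : Type} [Field K] [CharZero K] [Field L] [Algebra K L]
variable {N : Type} [Field N] [Algebra K N] [Algebra L N] [IsScalarTower K L N]
variable {ι : Type} [Fintype ι] {D : K[X]} {κ g u : ι → K[X]} {k : ℕ}

theorem gam_bc (v : ι ⊕ Bool → N) : gam (fun i => mpL K L (κ i)) k v = gam κ k v := by
  unfold gam
  rw [lin_bc, bc_inv (K := K)]

theorem Pt_bc {v : ι ⊕ Bool → N} {T w y : N} :
    Pt (mpL K L D) (fun i => mpL K L (κ i)) (fun i => mpL K L (g i)) (fun i => mpL K L (u i))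
      v T w y ↔ Pt D κ g u v T w y := by
  constructor
  · rintro ⟨h1, h2⟩
    refine ⟨?_, ?_⟩
    · rw [h1, mpL, aeval_map_algebraMap]
    · rw [← h2, FF_bc]
  · rintro ⟨h1, h2⟩
    refine ⟨?_, ?_⟩
    · rw [h1, mpL, aeval_map_algebraMap]
    · rw [← h2, FF_bc]

theorem DOK_bc (h : DOK D k κ g u) : DOK (mpL K L D) k (fun i => mpL K L (κ i))
    (fun i => mpL K L (g i)) (fun i => mpL K L (u i)) := by
  have hinj : Function.Injective (algebraMap K L) := (algebraMap K L).injective
  have e1 : mpL K L (X * D) = X * mpL K L D := by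
    simp only [mpL, Polynomial.map_mul, map_X]
  refine ⟨?_, ?_, ?_, ?_, ?_, ?_, ?_, ?_, h.hcard⟩
  · exact (Polynomial.map_ne_zero_iff hinj).2 h.hD
  · intro i
    have h1 := congrArg (mpL K L) (h.h1 i)
    simp only [mpL, Polynomial.map_add, Polynomial.map_mul, ← derivative_map, map_X,
      Polynomial.map_ofNat] at h1 ⊢
    exact h1
  · intro i
    have h1 := congrArg (mpL K L) (h.h2 i)
    simp only [mpL, Polynomial.map_add, Polynomial.map_mul, ← derivative_map, map_X,
      Polynomial.map_ofNat] at h1 ⊢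
    exact h1
  · rw [Fintype.linearIndependent_iff]
    intro c hc i
    -- coefficients in a basis of `L` over `K`
    let b := Module.Basis.ofVectorSpace K L
    have h1 : ∀ s, ∑ i, C (b.repr (c i) s) * κ i = 0 := by
      intro s
      ext n
      have h2 := congrArg (fun p => b.repr (p.coeff n) s) hc
      simp only [finsetSum_coeff, coeff_smul, coeff_map, smul_eq_mul, coeff_zero, map_zero,
        map_sum, Finsupp.finsetSum_apply, Finsupp.coe_zero, Pi.zero_apply] at h2
      simp only [finsetSum_coeff, coeff_C_mul, coeff_zero]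
      rw [← h2]
      refine Finset.sum_congr rfl fun j _ => ?_
      rw [mul_comm (c j), ← Algebra.smul_def, map_smul, Finsupp.smul_apply, smul_eq_mul, mul_comm]
    have h3 : ∀ s, b.repr (c i) s = 0 := by
      intro s
      refine Fintype.linearIndependent_iff.1 h.hli (fun i => b.repr (c i) s) ?_ i
      rw [← h1 s]
      refine Finset.sum_congr rfl fun j _ => ?_
      rw [smul_eq_C_mul]
    have h4 : b.repr (c i) = 0 := Finsupp.ext h3
    exact b.repr.map_eq_zero_iff.1 h4
  · intro i
    rw [mpL, natDegree_map]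
    exact h.hκ i
  · intro i
    rw [mpL, natDegree_map]
    exact h.hg i
  · intro i
    rw [mpL, natDegree_map]
    exact h.hu i
  · obtain ⟨i, hi⟩ := h.htop
    exact ⟨i, by rw [mpL, natDegree_map]; exact hi⟩

end bcf

end Pool.Agent.Y793
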