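import Mathlib
import Pool.Agent.Y793.E.Stm
import Pool.Agent.Y793.E.Bc
import Pool.Agent.TH444.TW.Data

/-!
The structure over `L(t)` of a regular solution (project of helper793).
-/

set_option autoImplicit false
set_option linter.unusedSectionVars false
set_option linter.unusedSimpArgs false

namespace Pool.Agent.Y793

open Polynomial Pool.Agent.H391R2 Pool.Agent.H391R2.T4 Pool.Agent.TH444.WC

theorem exists_ratL {K L F : Type} [Field K] [Field L] [Algebra K L] [FiniteDimensional K L]
    [Field F] [Algebra (RatFunc K) F] [Algebra L F] [Algebra K F]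
    [IsScalarTower K (RatFunc K) F] [IsScalarTower K L F] [FiniteDimensional (RatFunc K) F]
    [IsGalois (RatFunc K) F] :
    ∃ (_ : Algebra (RatFunc K) (RatFunc L)) (_ : Algebra (RatFunc L) F),
      IsScalarTower L (RatFunc L) F ∧ IsScalarTower (RatFunc K) (RatFunc L) F ∧
      FiniteDimensional (RatFunc L) F ∧ IsGalois (RatFunc L) F ∧
      (∀ p : K[X], algebraMap (RatFunc K) (RatFunc L) (algebraMap K[X] (RatFunc K) p) =
        algebraMap L[X] (RatFunc L) (p.map (algebraMap K L))) := by
  let TX : F := algebraMap (RatFunc K) F RatFunc.X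
  have hTXK : Transcendental K TX := by
    have h1 : Transcendental K (RatFunc.X : RatFunc K) := by
      rw [← RatFunc.algebraMap_X]
      exact (transcendental_algebraMap_iff (IsFractionRing.injective K[X] (RatFunc K))).2
        (Polynomial.transcendental_X K)
    exact (transcendental_algebraMap_iff (algebraMap (RatFunc K) F).injective).2 h1
  have hTX : Transcendental L TX := hTXK.extendScalars L
  let ev : L[X] →+* F := ((Polynomial.aeval TX : L[X] →ₐ[L] F) : L[X] →+* F)
  have hev : Function.Injective ev := transcendental_iff_injective.1 hTX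
  let φ : RatFunc L →+* F := IsFractionRing.lift (A := L[X]) hev
  have hφ : ∀ p, φ (algebraMap L[X] (RatFunc L) p) = ev p := fun p =>
    IsFractionRing.lift_algebraMap hev p
  have hφC : ∀ l : L, φ (algebraMap L (RatFunc L) l) = algebraMap L F l := by
    intro l
    have h1 : algebraMap L (RatFunc L) l = algebraMap L[X] (RatFunc L) (Polynomial.C l) := rfl
    rw [h1, hφ]
    change Polynomial.aeval TX (Polynomial.C l) = _
    rw [Polynomial.aeval_C]
  have hφX : φ RatFunc.X = TX := by
    rw [← RatFunc.algebraMap_X, hφ]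
    change Polynomial.aeval TX Polynomial.X = _
    rw [Polynomial.aeval_X]
  -- the inclusion of `K(X)` in `L(X)`
  let bc : K[X] →+* RatFunc L := (algebraMap L[X] (RatFunc L)).comp (mapRingHom (algebraMap K L))
  have hbc : Function.Injective bc := by
    rw [RingHom.coe_comp]
    exact (IsFractionRing.injective L[X] (RatFunc L)).comp
      (Polynomial.map_injective _ (algebraMap K L).injective)
  let κ : RatFunc K →+* RatFunc L := IsFractionRing.lift (A := K[X]) hbc
  have hκ : ∀ p, κ (algebraMap K[X] (RatFunc K) p) = bc p := fun p =>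
    IsFractionRing.lift_algebraMap hbc p
  have hφκ : φ.comp κ = algebraMap (RatFunc K) F := by
    apply ratFunc_hom_ext
    · intro k
      simp only [RingHom.comp_apply]
      have h1 : algebraMap K (RatFunc K) k = algebraMap K[X] (RatFunc K) (Polynomial.C k) := rfl
      rw [h1, hκ]
      change φ (algebraMap L[X] (RatFunc L) (mapRingHom (algebraMap K L) (Polynomial.C k))) = _
      rw [coe_mapRingHom, Polynomial.map_C, hφ]
      change Polynomial.aeval TX (Polynomial.C (algebraMap K L k)) = _
      rw [Polynomial.aeval_C, ← h1, ← IsScalarTower.algebraMap_apply K (RatFunc K) F,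
        ← IsScalarTower.algebraMap_apply K L F]
    · simp only [RingHom.comp_apply]
      rw [← RatFunc.algebraMap_X, hκ]
      change φ (algebraMap L[X] (RatFunc L) (mapRingHom (algebraMap K L) Polynomial.X)) = _
      rw [coe_mapRingHom, Polynomial.map_X, RatFunc.algebraMap_X, hφX, RatFunc.algebraMap_X]
  let i1 : Algebra (RatFunc L) F := φ.toAlgebra
  let i2 : Algebra (RatFunc K) (RatFunc L) := κ.toAlgebra
  have t1 : IsScalarTower L (RatFunc L) F := IsScalarTower.of_algebraMap_eq fun l => (hφC l).symm
  have t2 : IsScalarTower (RatFunc K) (RatFunc L) F := IsScalarTower.of_algebraMap_eq fun y =>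
    (RingHom.congr_fun hφκ y).symm
  exact ⟨i2, i1, t1, t2, FiniteDimensional.right (RatFunc K) (RatFunc L) F,
    IsGalois.tower_top_of_isGalois (RatFunc K) (RatFunc L) F, hκ⟩

section tr

variable {K L Z : Type} [Field K] [Field L] [Algebra K L] [Field Z]
  [Algebra (RatFunc K) Z] [Algebra L Z] [Algebra (RatFunc K) (RatFunc L)] [Algebra (RatFunc L) Z]
  [IsScalarTower (RatFunc K) (RatFunc L) Z]
  (hp : ∀ p : K[X], algebraMap (RatFunc K) (RatFunc L) (algebraMap K[X] (RatFunc K) p) =
        algebraMap L[X] (RatFunc L) (p.map (algebraMap K L)))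

include hp

theorem pol_bc (p : K[X]) : algebraMap (RatFunc L) Z (algebraMap L[X] (RatFunc L)
    (mpL K L p)) = algebraMap (RatFunc K) Z (algebraMap K[X] (RatFunc K) p) := by
  rw [mpL, ← hp, ← IsScalarTower.algebraMap_apply]

theorem tz_bc (t₀ : K) : tz L Z (algebraMap K L t₀) = tz K Z t₀ := by
  have h1 := pol_bc (Z := Z) hp (X - C t₀)
  unfold tz
  rw [← RatFunc.algebraMap_X, ← RatFunc.algebraMap_C, ← map_sub, ← RatFunc.algebraMap_X,
    ← RatFunc.algebraMap_C, ← map_sub, ← h1]
  simp only [mpL, Polynomial.map_sub, map_X, map_C]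

end tr

end Pool.Agent.Y793
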