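import Mathlib
import Pool.Agent.Y793.E.Rl

set_option autoImplicit false
set_option linter.unusedSectionVars false
set_option linter.unusedSimpArgs false

namespace Pool.Agent.Y793

open Polynomial Pool.Agent.H391R2 Pool.Agent.H391R2.T4 Pool.Agent.TH444.WC

section gal

variable {K L Z : Type} [Field K] [Field L] [Algebra K L] [Field Z]
  [Algebra (RatFunc K) Z] [Algebra L Z] [Algebra K Z] [IsScalarTower K (RatFunc K) Z]
  [IsScalarTower K L Z] [Algebra (RatFunc K) (RatFunc L)] [Algebra (RatFunc L) Z]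
  [IsScalarTower (RatFunc K) (RatFunc L) Z] [IsScalarTower L (RatFunc L) Z]
  (hp : ∀ p : K[X], algebraMap (RatFunc K) (RatFunc L) (algebraMap K[X] (RatFunc K) p) =
        algebraMap L[X] (RatFunc L) (p.map (algebraMap K L)))
  (π : (Z ≃ₐ[RatFunc K] Z) →* (L ≃ₐ[K] L))
  (hπ : ∀ (σ : Z ≃ₐ[RatFunc K] Z) (x : L), σ (algebraMap L Z x) = algebraMap L Z (π σ x))

include hp hπ

theorem lift_ker (γ : Z ≃ₐ[RatFunc K] Z) (hγ : π γ = 1) :
    ∃ γ' : Z ≃ₐ[RatFunc L] Z, ∀ z, γ' z = γ z := by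
  have h1 : ((γ : Z →+* Z).comp (algebraMap (RatFunc L) Z)) = algebraMap (RatFunc L) Z := by
    apply ratFunc_hom_ext
    · intro l
      simp only [RingHom.comp_apply]
      rw [← IsScalarTower.algebraMap_apply L (RatFunc L) Z]
      change γ (algebraMap L Z l) = _
      rw [hπ, hγ]
      rfl
    · simp only [RingHom.comp_apply]
      have h2 : (RatFunc.X : RatFunc L) = algebraMap (RatFunc K) (RatFunc L) RatFunc.X := by
        rw [← RatFunc.algebraMap_X, ← RatFunc.algebraMap_X, hp, map_X]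
      rw [h2, ← IsScalarTower.algebraMap_apply]
      exact γ.commutes _
  exact ⟨AlgEquiv.ofRingEquiv (f := γ.toRingEquiv) (fun q => RingHom.congr_fun h1 q),
    fun _ => rfl⟩

omit hp in
theorem ker_restrict (γ' : Z ≃ₐ[RatFunc L] Z) : π (γ'.restrictScalars (RatFunc K)) = 1 := by
  apply AlgEquiv.ext
  intro l
  apply (algebraMap L Z).injective
  rw [← hπ]
  change γ' (algebraMap L Z l) = algebraMap L Z l
  rw [IsScalarTower.algebraMap_apply L (RatFunc L) Z]
  exact γ'.commutes _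

theorem perf_L (δ : Z)
    (hperf : commutator ((MulAction.stabilizer (Z ≃ₐ[RatFunc K] Z) δ ⊓ π.ker :
      Subgroup (Z ≃ₐ[RatFunc K] Z))) = ⊤) :
    commutator (MulAction.stabilizer (Z ≃ₐ[RatFunc L] Z) δ) = ⊤ := by
  have hex : ∀ γ : (MulAction.stabilizer (Z ≃ₐ[RatFunc K] Z) δ ⊓ π.ker :
      Subgroup (Z ≃ₐ[RatFunc K] Z)), ∃ γ' : MulAction.stabilizer (Z ≃ₐ[RatFunc L] Z) δ,
      ∀ z, (γ' : Z ≃ₐ[RatFunc L] Z) z = (γ : Z ≃ₐ[RatFunc K] Z) z := by
    intro γ
    obtain ⟨γ', hγ'⟩ := lift_ker hp π hπ γ.1 (MonoidHom.mem_ker.1 (Subgroup.mem_inf.1 γ.2).2)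
    refine ⟨⟨γ', ?_⟩, hγ'⟩
    rw [MulAction.mem_stabilizer_iff]
    change γ' δ = δ
    rw [hγ']
    exact MulAction.mem_stabilizer_iff.1 (Subgroup.mem_inf.1 γ.2).1
  choose f hf using hex
  let F : (MulAction.stabilizer (Z ≃ₐ[RatFunc K] Z) δ ⊓ π.ker :
      Subgroup (Z ≃ₐ[RatFunc K] Z)) →* MulAction.stabilizer (Z ≃ₐ[RatFunc L] Z) δ :=
    MonoidHom.mk' f (fun a b => by
      apply Subtype.ext
      apply AlgEquiv.ext
      intro z
      rw [hf]
      change _ = (f a : Z ≃ₐ[RatFunc L] Z) ((f b : Z ≃ₐ[RatFunc L] Z) z)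
      rw [hf, hf]
      rfl)
  have hF : Function.Bijective F := by
    constructor
    · intro a b hab
      apply Subtype.ext
      apply AlgEquiv.ext
      intro z
      rw [← hf a, ← hf b]
      exact congrArg (fun c : MulAction.stabilizer (Z ≃ₐ[RatFunc L] Z) δ =>
        (c : Z ≃ₐ[RatFunc L] Z) z) hab
    · intro c
      refine ⟨⟨(c : Z ≃ₐ[RatFunc L] Z).restrictScalars (RatFunc K), Subgroup.mem_inf.2 ⟨?_, ?_⟩⟩,
        ?_⟩
      · rw [MulAction.mem_stabilizer_iff]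
        exact MulAction.mem_stabilizer_iff.1 c.2
      · exact MonoidHom.mem_ker.2 (ker_restrict π hπ _)
      · apply Subtype.ext
        apply AlgEquiv.ext
        intro z
        exact hf _ z
  exact perf_congr (MulEquiv.ofBijective F hF) hperf

end gal

section coreL

variable {K L Z : Type} [Field K] [CharZero K] [Field L] [Algebra K L] [FiniteDimensional K L]
  [IsGalois K L] [Field Z] [Algebra (RatFunc K) Z] [Algebra L Z] [Algebra K Z]
  [IsScalarTower K (RatFunc K) Z] [IsScalarTower K L Z] [FiniteDimensional (RatFunc K) Z]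
  [IsGalois (RatFunc K) Z]

theorem coreL (hgen : St_gen) (hiso : St_iso) (hext : St_ext) (hgrp : St_grp) (hevn : St_evn)
    (hcyc : St_cyc) (hari : St_arithL) (hstarL : St_starL) (hdata : St_data)
    (π : (Z ≃ₐ[RatFunc K] Z) →* (L ≃ₐ[K] L))
    (hπ : ∀ (σ : Z ≃ₐ[RatFunc K] Z) (x : L), σ (algebraMap L Z x) = algebraMap L Z (π σ x))
    (hreg : ∀ y : Z, IsAlgebraic L y → y ∈ Set.range (algebraMap L Z))
    (P : Subgroup (Z ≃ₐ[RatFunc K] Z)) (hP : P.index = 2) (hPπ : P.map π = ⊤)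
    (hperf : ∀ H : Subgroup (Z ≃ₐ[RatFunc K] Z), H = P ⊓ π.ker → commutator H = ⊤) :
    ∃ k₀ : ℕ, ∀ k ≥ k₀, RegSol K L (AltEP (π.comp P.subtype) (8 * k + 4))
      (altProj (π.comp P.subtype) (8 * k + 4)) := by
  classical
  have hcL : CharZero L := charZero_of_injective_algebraMap (algebraMap K L).injective
  have hcZ : CharZero Z := charZero_of_injective_algebraMap (algebraMap K Z).injective
  obtain ⟨iKL, iLZ, t1, t2, hfd, hgal, hp⟩ := exists_ratL (K := K) (L := L) (F := Z)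
  obtain ⟨t₀, hstar⟩ := hstarL K L Z
  obtain ⟨δ, D, hD, hst, -, hδ⟩ := start P hP t₀
  -- an automorphism in the kernel which changes the sign of `δ`
  have hker : ∃ γ₀ : Z ≃ₐ[RatFunc K] Z, γ₀ ∉ P ∧ π γ₀ = 1 := by
    obtain ⟨γ, hγ⟩ : ∃ γ, γ ∉ P := by
      by_contra hcon
      push Not at hcon
      have h1 : P = ⊤ := (Subgroup.eq_top_iff' P).2 hcon
      rw [h1, Subgroup.index_top] at hP
      omega
    have h1 : π γ ∈ P.map π := by
      rw [hPπ]
      exact Subgroup.mem_top _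
    obtain ⟨q, hq, hq2⟩ := Subgroup.mem_map.1 h1
    refine ⟨γ * q⁻¹, fun h2 => hγ ?_, ?_⟩
    · have h3 := P.mul_mem h2 hq
      rwa [inv_mul_cancel_right] at h3
    · rw [map_mul, map_inv, hq2, mul_inv_cancel]
  obtain ⟨γ₀, hγ₀P, hγ₀π⟩ := hker
  have hγ₀ : γ₀ δ = -δ := by
    have h1 : γ₀ δ ^ 2 = δ ^ 2 := by
      rw [← map_pow, hδ, AlgEquiv.commutes]
    rcases sq_eq_sq_iff_eq_or_eq_neg.1 h1 with h2 | h2
    · exfalso
      apply hγ₀P
      rw [← hst, MulAction.mem_stabilizer_iff]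
      exact h2
    · exact h2
  obtain ⟨γ₁, hγ₁⟩ := lift_ker hp π hπ γ₀ hγ₀π
  have hperfL := perf_L hp π hπ δ (by
    apply hperf
    rw [hst])
  set ν := Nat.card (MulAction.stabilizer (Z ≃ₐ[RatFunc L] Z) δ) with hν
  obtain ⟨k₁, hk₁⟩ := hdata K D hD
  refine ⟨k₁ + (2 * D.natDegree + 2) + ν ^ 2 + 1, fun k hkk => ?_⟩
  obtain ⟨p, κ, g, u, h⟩ := hk₁ k (by omega)
  have hk : 2 * D.natDegree + 2 ≤ k := by omega
  have hcard : ν ^ 2 ≤ k := by omega
  have hL := DOK_bc (L := L) h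
  have hkL : 2 * (mpL K L D).natDegree + 2 ≤ k := by
    rw [mpL, natDegree_map]
    exact hk
  let k₀ := AlgebraicClosure K
  let jL : L →ₐ[K] k₀ := IsAlgClosed.lift
  let iL : Algebra L k₀ := jL.toRingHom.toAlgebra
  have tKL : IsScalarTower K L k₀ := .of_algebraMap_eq fun x => (jL.commutes x).symm
  obtain ⟨N, i1, i2, i3, η, hη⟩ := exists_trb k₀ (Ix (Fin p))
  let i4 : Algebra K N := ((algebraMap k₀ N).comp (algebraMap K k₀)).toAlgebra
  let i4L : Algebra L N := ((algebraMap k₀ N).comp (algebraMap L k₀)).toAlgebra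
  have i5 : IsScalarTower K k₀ N := .of_algebraMap_eq fun _ => rfl
  have i5L : IsScalarTower L k₀ N := .of_algebraMap_eq fun _ => rfl
  have i6 : IsScalarTower K L N := .of_algebraMap_eq fun x => by
    rw [IsScalarTower.algebraMap_apply K k₀ N, IsScalarTower.algebraMap_apply K L k₀,
      ← IsScalarTower.algebraMap_apply L k₀ N]
  have hδL : δ ^ 2 = algebraMap (RatFunc L) Z (algebraMap L[X] (RatFunc L)
      ((mpL K L D).comp (X - C (algebraMap K L t₀)))) := by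
    rw [hδ, ← pol_bc (Z := Z) hp]
    congr 2
    simp only [mpL, map_comp, Polynomial.map_sub, map_X, map_C]
  obtain ⟨r, φ, S⟩ := exists_sy (Z := Z) η hη hL (algebraMap K L t₀) δ hkL hgen hiso hδL γ₁
    (by rw [hγ₁]; exact hγ₀)
  -- the same data over `K`
  have SK : Sy D κ g u k t₀ δ (fun i => η (Sum.inl i)) (η (Sum.inr ())) _ r
      (fun i => (φ i).restrictScalars K) := by
    refine ⟨S.inj, fun i => ⟨?_, ?_⟩, ?_⟩
    · have h1 := (S.lp i).hw
      rw [tz_bc hp] at h1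
      exact h1
    · exact Pt_bc.1 (S.lp i).hp
    · have h1 := S.prod
      rw [PP_bc, gam_bc] at h1
      exact h1
  obtain ⟨F, j1, j2, j3, j4, j5, c, hc, T₁, w₁, m, a, ha, haw, hprod, hA⟩ :=
    exists_triple h hk hgen hiso k₀
  have hgam := gam_ne h c hc
  have hroot : ∀ i, (PP D κ g u (fun i => η (Sum.inl i)) (η (Sum.inr ()))).eval (r i) = 0 :=
    fun i => (SK.lp i).hp.root
  have hnm : 2 * (2 * (2 * k + 1)) = m + 3 := by
    have h1 := (PP_deg h hk c T₁ hgam).1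
    rw [hprod, natDegree_C_mul (pow_ne_zero 2 hgam), natDegree_mul
      (pow_ne_zero 3 (X_sub_C_ne_zero w₁))
      (Finset.prod_ne_zero_iff.2 fun i _ => X_sub_C_ne_zero _), natDegree_pow,
      natDegree_X_sub_C, natDegree_prod _ _ (fun i _ => X_sub_C_ne_zero _)] at h1
    simp only [natDegree_X_sub_C, Finset.sum_const, Finset.card_univ, Fintype.card_fin,
      smul_eq_mul] at h1
    omega
  have h3 : ∃ (σ : N ≃ₐ[k₀] N) (π : Equiv.Perm (Fin (2 * (2 * (2 * k + 1))))),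
      (∀ i, σ (η i) = η i) ∧ (∀ i, σ (r i) = r (π i)) ∧ π.IsThreeCycle := by
    have key : ∀ (n : ℕ) (r : Fin n → N), n = m + 3 → Function.Injective r →
        (∀ i, (PP D κ g u (fun i => η (Sum.inl i)) (η (Sum.inr ()))).eval (r i) = 0) →
        ∃ (σ : N ≃ₐ[k₀] N) (π : Equiv.Perm (Fin n)),
          (∀ i, σ (η i) = η i) ∧ (∀ i, σ (r i) = r (π i)) ∧ π.IsThreeCycle := by
      rintro n r rfl hr hr2
      exact hcyc K (Fin p) D κ g u k h hk k₀ N η hη F c hc hgam T₁ w₁ m a ha haw hprod hA r hr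
        hr2
    exact key _ r hnm S.inj hroot
  have hn2 : 2 * ν ^ 2 < (2 * (2 * (2 * k + 1)) - 2).factorial := by
    refine lt_of_lt_of_le ?_ (Nat.self_le_factorial _)
    omega
  have hgeo := geo (Z := Z) η hη hL (algebraMap K L t₀) δ hgen hiso hext hgrp hreg hstar S hperfL
    (by omega) hn2 h3
  obtain ⟨θ, hθ⟩ := Field.exists_primitive_element (RatFunc K) Z
  have hn : 8 * k + 4 = 2 * (2 * (2 * k + 1)) := by ring
  rw [hn]
  subst hst
  refine hari K L k₀ N (Ix (Fin p)) η hη (MulAction.stabilizer (Z ≃ₐ[RatFunc K] Z) δ)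
    (π.comp (MulAction.stabilizer (Z ≃ₐ[RatFunc K] Z) δ).subtype) _ r S.inj
    (fun i γ => φ i ((γ : Z ≃ₐ[RatFunc K] Z) θ)) ?_ ?_ ?_
  · intro i γ γ' hγ
    have h4 : (γ : Z ≃ₐ[RatFunc K] Z) θ = (γ' : Z ≃ₐ[RatFunc K] Z) θ := (φ i).injective hγ
    apply Subtype.ext
    apply AlgEquiv.ext
    intro z
    have h5 : z ∈ IntermediateField.adjoin (RatFunc K) {θ} := by
      rw [hθ]
      exact IntermediateField.mem_top
    exact eq_on_adjoin ((γ : Z ≃ₐ[RatFunc K] Z) : Z →ₐ[RatFunc K] Z)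
      ((γ' : Z ≃ₐ[RatFunc K] Z) : Z →ₐ[RatFunc K] Z) {θ} (by
        rintro s hs
        rw [Set.mem_singleton_iff.1 hs]
        exact h4) z h5
  · intro σ hσ
    obtain ⟨x, hx, hx2⟩ := exists_x η hη h t₀ δ hk hgen hiso hevn SK σ hσ
    have key : ∀ i (b : L), σ (algebraMap L N b) =
        algebraMap L N (π (x.left (x.right i) : Z ≃ₐ[RatFunc K] Z) b) := by
      intro i b
      have h4 : algebraMap L N b = φ i (algebraMap L Z b) := ((φ i).commutes b).symm
      have h5 := (hx2 i).2 (algebraMap L Z b)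
      change σ (φ i (algebraMap L Z b)) = φ (x.right i) _ at h5
      rw [h4, h5, hπ, (φ (x.right i)).commutes]
    have i₀ : Fin (2 * (2 * (2 * k + 1))) := ⟨0, by omega⟩
    refine ⟨(x, π (x.left (x.right i₀) : Z ≃ₐ[RatFunc K] Z)), Subgroup.mem_inf.2 ⟨?_, hx⟩,
      key i₀, fun i => ⟨(hx2 i).1, fun γ => (hx2 i).2 _⟩⟩
    intro j
    obtain ⟨i, rfl⟩ := x.right.surjective j
    change π (x.left (x.right i) : Z ≃ₐ[RatFunc K] Z) = π (x.left (x.right i₀) :
      Z ≃ₐ[RatFunc K] Z)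
    apply AlgEquiv.ext
    intro b
    apply (algebraMap L N).injective
    rw [← key i b, ← key i₀ b]
  · intro x hx hx1
    have h6 : ∀ j, ∃ γ' : MulAction.stabilizer (Z ≃ₐ[RatFunc L] Z) δ,
        ∀ z, (γ' : Z ≃ₐ[RatFunc L] Z) z = (x.left j : Z ≃ₐ[RatFunc K] Z) z := by
      intro j
      obtain ⟨γ', hγ'⟩ := lift_ker hp π hπ (x.left j : Z ≃ₐ[RatFunc K] Z) (hx1 j)
      refine ⟨⟨γ', ?_⟩, hγ'⟩
      rw [MulAction.mem_stabilizer_iff]
      change γ' δ = δ
      rw [hγ']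
      exact MulAction.mem_stabilizer_iff.1 (x.left j).2
    choose yl hyl using h6
    obtain ⟨σ, h1, h2⟩ := hgeo ⟨yl, x.right⟩ hx
    refine ⟨σ, h1, fun i => ⟨(h2 i).1, fun γ => ?_⟩⟩
    have h7 := (h2 i).2 ((γ : Z ≃ₐ[RatFunc K] Z) θ)
    rw [h7]
    congr 1
    exact hyl _ _

end coreL

end Pool.Agent.Y793
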