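import Mathlib
import Pool.Agent.Y793.E.Core
import Pool.Agent.TH59.WX.PG

set_option autoImplicit false
set_option linter.unusedSectionVars false
set_option linter.unusedSimpArgs false

namespace Pool.Agent.Y793

open Polynomial Pool.Agent.H391R2 Pool.Agent.H391R2.T4

theorem regSol_iso (K L A B : Type) [Field K] [Field L] [Algebra K L] [Group A] [Group B]
    (α : A →* (L ≃ₐ[K] L)) (β : B →* (L ≃ₐ[K] L)) (e : A ≃* B) (he : ∀ a, β (e a) = α a)
    (h : RegSol K L A α) : RegSol K L B β := by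
  obtain ⟨F, i1, i2, i3, i4, i5, i6, i7, i8, γ, hγ, hr⟩ := h
  refine ⟨F, i1, i2, i3, i4, i5, i6, i7, i8, γ.trans e, fun σ x => ?_, hr⟩
  rw [hγ, MulEquiv.trans_apply, he]

section congr

variable {Γ G H : Type} [Group Γ] [Group G] [Group H]

/-- Alternating fibre powers of isomorphic homomorphisms. -/
def altCongr (α : G →* Γ) (β : H →* Γ) (e : G ≃* H) (he : ∀ g, β (e g) = α g) (n : ℕ) :
    AltEP α n ≃* AltEP β n where
  toFun z := ⟨(wrCongr e n z.1.1, z.1.2), Subgroup.mem_inf.2 ⟨fun i => by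
    change β (e (z.1.1.left i)) = z.1.2
    rw [he]
    exact (Subgroup.mem_inf.1 z.2).1 i, (Subgroup.mem_inf.1 z.2).2⟩⟩
  invFun z := ⟨((wrCongr e n).symm z.1.1, z.1.2), Subgroup.mem_inf.2 ⟨fun i => by
    change α (e.symm (z.1.1.left i)) = z.1.2
    rw [← he, e.apply_symm_apply]
    exact (Subgroup.mem_inf.1 z.2).1 i, (Subgroup.mem_inf.1 z.2).2⟩⟩
  left_inv z := Subtype.ext (Prod.ext ((wrCongr e n).symm_apply_apply _) rfl)
  right_inv z := Subtype.ext (Prod.ext ((wrCongr e n).apply_symm_apply _) rfl)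
  map_mul' z w := Subtype.ext (Prod.ext ((wrCongr e n).map_mul _ _) rfl)

theorem altCongr_proj (α : G →* Γ) (β : H →* Γ) (e : G ≃* H) (he : ∀ g, β (e g) = α g) (n : ℕ)
    (z : AltEP α n) : altProj β n (altCongr α β e he n z) = altProj α n z := rfl

end congr

theorem mainL_of (hgen : St_gen) (hiso : St_iso) (hext : St_ext) (hgrp : St_grp) (hevn : St_evn)
    (hcyc : St_cyc) (hari : St_arithL) (hstarL : St_starL) (hdata : St_data) : St_mainL := by
  intro K L _ _ _ _ _ _ X _ _ π hX P hP hPπ hperf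
  obtain ⟨Z, i1, i2, i3, i4, i5, i6, i7, i8, γ, hγ, hreg⟩ := hX
  let π' : (Z ≃ₐ[RatFunc K] Z) →* (L ≃ₐ[K] L) := π.comp (γ : (Z ≃ₐ[RatFunc K] Z) →* X)
  let P' : Subgroup (Z ≃ₐ[RatFunc K] Z) := P.comap (γ : (Z ≃ₐ[RatFunc K] Z) →* X)
  have hP' : P'.index = 2 := by
    rw [Subgroup.index_comap_of_surjective _ γ.surjective, hP]
  have hmap : P'.map (γ : (Z ≃ₐ[RatFunc K] Z) →* X) = P :=
    Subgroup.map_comap_eq_self_of_surjective γ.surjective P
  have hPπ' : P'.map π' = ⊤ := by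
    rw [← Subgroup.map_map, hmap, hPπ]
  have hperf' : ∀ H : Subgroup (Z ≃ₐ[RatFunc K] Z), H = P' ⊓ π'.ker → commutator H = ⊤ := by
    rintro H rfl
    have h1 : (P' ⊓ π'.ker).map (γ : (Z ≃ₐ[RatFunc K] Z) →* X) = P ⊓ π.ker := by
      ext x
      rw [Subgroup.mem_map]
      constructor
      · rintro ⟨σ, hσ, rfl⟩
        exact Subgroup.mem_inf.2 ⟨(Subgroup.mem_inf.1 hσ).1, (Subgroup.mem_inf.1 hσ).2⟩
      · intro hx
        refine ⟨γ.symm x, Subgroup.mem_inf.2 ⟨?_, ?_⟩, γ.apply_symm_apply x⟩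
        · change γ (γ.symm x) ∈ P
          rw [γ.apply_symm_apply]
          exact (Subgroup.mem_inf.1 hx).1
        · change π (γ (γ.symm x)) = 1
          rw [γ.apply_symm_apply]
          exact (Subgroup.mem_inf.1 hx).2
    have h2 := hperf _ rfl
    exact perf_congr ((γ.subgroupMap (P' ⊓ π'.ker)).trans (MulEquiv.subgroupCongr h1)).symm h2
  obtain ⟨k₀, hk₀⟩ := coreL hgen hiso hext hgrp hevn hcyc hari hstarL hdata π' hγ hreg P' hP' hPπ'
    hperf'
  let e : P' ≃* P := (γ.subgroupMap P').trans (MulEquiv.subgroupCongr hmap)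
  refine ⟨k₀, fun k hk => ?_⟩
  exact regSol_iso K L _ _ _ _ (altCongr (π'.comp P'.subtype) (π.comp P.subtype) e
    (fun g => rfl) (8 * k + 4)) (fun z => rfl) (hk₀ k hk)

end Pool.Agent.Y793
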