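import Mathlib
import Pool.Agent.Y793.E.MainA
import Pool.Agent.H391R2.T4.Fin
import Pool.Agent.TH59.WX.UH

set_option autoImplicit false
set_option linter.unusedSectionVars false
set_option linter.unusedSimpArgs false

namespace Pool.Agent.Y793

open Polynomial Pool.Agent.H391R2 Pool.Agent.H391R2.T4

section tw

variable {Γ E₀ : Type} [Group Γ] [Group E₀]

/-- The fibre power of `α : E₀ → Γ` twisted by the character `χ` of `Γ`: the group of all
`(x, ρ)` with `x` in `E₀ ≀ S_n`, `ρ` in `Γ`, `α (x.left i) = ρ` for all `i` and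
`sign x.right = χ ρ`. For `χ = 1` it is the alternating fibre power. -/
def AltTw (α : E₀ →* Γ) (χ : Γ →* ℤˣ) (n : ℕ) : Subgroup (Wr E₀ n × Γ) :=
  SymEP α n ⊓ ((Equiv.Perm.sign.comp SemidirectProduct.rightHom).comp
    (MonoidHom.fst (Wr E₀ n) Γ)).eqLocus (χ.comp (MonoidHom.snd (Wr E₀ n) Γ))

/-- The projection `(x, ρ) ↦ ρ`. -/
def twProj (α : E₀ →* Γ) (χ : Γ →* ℤˣ) (n : ℕ) : AltTw α χ n →* Γ :=
  (MonoidHom.snd (Wr E₀ n) Γ).comp (AltTw α χ n).subtype

variable (α : E₀ →* Γ) (χ : Γ →* ℤˣ) (n : ℕ)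

/-- The sign times the character. -/
def sgnχ : SymEP α n →* ℤˣ where
  toFun z := Equiv.Perm.sign z.1.1.right * χ z.1.2
  map_one' := by
    change Equiv.Perm.sign (1 : Equiv.Perm (Fin n)) * χ 1 = 1
    rw [map_one, map_one, one_mul]
  map_mul' z w := by
    change Equiv.Perm.sign (z.1.1.right * w.1.1.right) * χ (z.1.2 * w.1.2) = _
    rw [map_mul, map_mul, mul_mul_mul_comm]

theorem units_mul_eq_one (a b : ℤˣ) : a * b = 1 ↔ a = b := by
  rw [mul_eq_one_iff_eq_inv, Int.units_inv_eq_self]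

theorem sub_eq_ker : (AltTw α χ n).subgroupOf (SymEP α n) = (sgnχ α χ n).ker := by
  ext z
  rw [Subgroup.mem_subgroupOf, MonoidHom.mem_ker]
  change _ ↔ Equiv.Perm.sign z.1.1.right * χ z.1.2 = 1
  rw [units_mul_eq_one]
  constructor
  · intro h
    exact (Subgroup.mem_inf.1 h).2
  · intro h
    exact Subgroup.mem_inf.2 ⟨z.2, h⟩

variable {n}

theorem exists_odd (hn : 2 ≤ n) : ∃ τ : Equiv.Perm (Fin n), Equiv.Perm.sign τ = -1 := by
  have h01 : (⟨0, by omega⟩ : Fin n) ≠ ⟨1, by omega⟩ := by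
    intro h
    have := congrArg Fin.val h
    simp at this
  exact ⟨Equiv.swap ⟨0, by omega⟩ ⟨1, by omega⟩, Equiv.Perm.sign_swap h01⟩

theorem index_two (hn : 2 ≤ n) : ((AltTw α χ n).subgroupOf (SymEP α n)).index = 2 := by
  rw [sub_eq_ker, Subgroup.index_ker]
  have h1 : (sgnχ α χ n).range = ⊤ := by
    rw [MonoidHom.range_eq_top]
    intro e
    obtain ⟨τ, hτ⟩ := exists_odd hn
    rcases Int.units_eq_one_or e with rfl | rfl
    · exact ⟨1, map_one _⟩
    · refine ⟨⟨(⟨1, τ⟩, 1), fun i => map_one α⟩, ?_⟩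
      change Equiv.Perm.sign τ * χ 1 = -1
      rw [hτ, map_one, mul_one]
  rw [h1, Nat.card_congr Subgroup.topEquiv.toEquiv]
  simp

theorem map_top (hn : 2 ≤ n) (hα : Function.Surjective α) :
    ((AltTw α χ n).subgroupOf (SymEP α n)).map (symProj α n) = ⊤ := by
  rw [Subgroup.eq_top_iff']
  intro ρ
  obtain ⟨g, hg⟩ := hα ρ
  obtain ⟨τ, hτ⟩ : ∃ τ : Equiv.Perm (Fin n), Equiv.Perm.sign τ = χ ρ := by
    rcases Int.units_eq_one_or (χ ρ) with h | h
    · exact ⟨1, by rw [h, map_one]⟩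
    · rw [h]
      exact exists_odd hn
  refine Subgroup.mem_map.2 ⟨⟨(⟨fun _ => g, τ⟩, ρ), fun i => hg⟩, ?_, rfl⟩
  rw [Subgroup.mem_subgroupOf]
  exact Subgroup.mem_inf.2 ⟨fun i => hg, hτ⟩

theorem perf_ker (hn : 5 ≤ n) (hperf : commutator α.ker = ⊤) (H : Subgroup (SymEP α n))
    (hH : H = (AltTw α χ n).subgroupOf (SymEP α n) ⊓ (symProj α n).ker) : commutator H = ⊤ := by
  subst hH
  let f : AWr α.ker n → ((AltTw α χ n).subgroupOf (SymEP α n) ⊓ (symProj α n).ker :
      Subgroup (SymEP α n)) := fun x =>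
    ⟨⟨(⟨fun i => (x.1.left i : E₀), x.1.right⟩, 1), fun i => (x.1.left i).2⟩,
      Subgroup.mem_inf.2 ⟨by
        rw [Subgroup.mem_subgroupOf]
        refine Subgroup.mem_inf.2 ⟨fun i => (x.1.left i).2, ?_⟩
        change Equiv.Perm.sign x.1.right = χ 1
        rw [map_one]
        exact x.2, rfl⟩⟩
  let F : AWr α.ker n →* ((AltTw α χ n).subgroupOf (SymEP α n) ⊓ (symProj α n).ker :
      Subgroup (SymEP α n)) := MonoidHom.mk' f (fun x y => by
    apply Subtype.ext
    apply Subtype.ext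
    refine Prod.ext ?_ (mul_one 1).symm
    apply SemidirectProduct.ext
    · funext i
      rfl
    · rfl)
  have hF : Function.Bijective F := by
    constructor
    · intro x y hxy
      have h1 : ((F x : SymEP α n) : Wr E₀ n × Γ) = ((F y : SymEP α n) : Wr E₀ n × Γ) := by
        rw [hxy]
      have h2 : (((F x : SymEP α n) : Wr E₀ n × Γ)).1 = (((F y : SymEP α n) : Wr E₀ n × Γ)).1 :=
        congrArg Prod.fst h1
      apply Subtype.ext
      apply SemidirectProduct.ext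
      · funext i
        apply Subtype.ext
        exact congrFun (congrArg SemidirectProduct.left h2) i
      · have h3 := congrArg SemidirectProduct.right h2
        exact h3
    · rintro ⟨⟨⟨x, ρ⟩, hx⟩, hz⟩
      obtain ⟨hz1, hz2⟩ := Subgroup.mem_inf.1 hz
      have hρ : ρ = 1 := hz2
      subst hρ
      rw [Subgroup.mem_subgroupOf] at hz1
      have h3 : Equiv.Perm.sign x.right = χ 1 := (Subgroup.mem_inf.1 hz1).2
      rw [map_one] at h3
      refine ⟨⟨⟨fun i => ⟨x.left i, hx i⟩, x.right⟩, h3⟩, ?_⟩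
      apply Subtype.ext
      apply Subtype.ext
      rfl
  exact perf_congr (MulEquiv.ofBijective F hF) (Y241.WR.t_perf α.ker hperf n hn)

end tw

/-- The main application. -/
theorem alt_tower (hmain : St_mainL) (K L E : Type) [Field K] [CharZero K] [Field L] [Algebra K L]
    [FiniteDimensional K L] [IsGalois K L] [Group E] [Finite E] (α : E →* (L ≃ₐ[K] L))
    (hw : WeakSol K L E α) (hperf : commutator α.ker = ⊤) (χ : (L ≃ₐ[K] L) →* ℤˣ) (n : ℕ)
    (hn : ((3 * Nat.card α.ker + 2).factorial) ^ 3 ≤ n) :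
    ∃ k₀ : ℕ, ∀ k ≥ k₀, RegSol K L (AltEP (twProj α χ n) (8 * k + 4))
      (altProj (twProj α χ n) (8 * k + 4)) := by
  have hα : Function.Surjective α := by
    obtain ⟨L', i1, i2, i3, i4, i5, i6, s, hs⟩ := hw
    intro ρ
    obtain ⟨ρ', hρ'⟩ := AlgEquiv.restrictNormalHom_surjective (F := K) (K₁ := L) L' ρ
    exact ⟨s ρ', (hs ρ').trans hρ'⟩
  have hn5 : 5 ≤ n := by
    have h1 : 0 < Nat.card α.ker := Nat.card_pos
    have h2 : 5 ≤ (3 * Nat.card α.ker + 2).factorial :=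
      le_trans (by omega) (Nat.self_le_factorial _)
    calc 5 ≤ (3 * Nat.card α.ker + 2).factorial ^ 1 := by rw [pow_one]; exact h2
      _ ≤ (3 * Nat.card α.ker + 2).factorial ^ 3 :=
        Nat.pow_le_pow_right (by omega) (by omega)
      _ ≤ n := hn
  have h1 := (regSol_iff K L (SymEP α n) (symProj α n)).2
    (Pool.Agent.TH59.WX.reg_fin_unif K L E α hw n hn).1
  have hfin : Finite (SymEP α n) := finite_sym K L E α n
  obtain ⟨k₀, hk₀⟩ := hmain K L (SymEP α n) (symProj α n) h1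
    ((AltTw α χ n).subgroupOf (SymEP α n)) (index_two α χ (by omega))
    (map_top α χ (by omega) hα) (fun H hH => perf_ker α χ hn5 hperf H hH)
  refine ⟨k₀, fun k hk => ?_⟩
  have hle : AltTw α χ n ≤ SymEP α n := inf_le_left
  exact regSol_iso K L _ _ _ _ (altCongr _ (twProj α χ n) (Subgroup.subgroupOfEquivOfLe hle)
    (fun g => rfl) (8 * k + 4)) (fun z => rfl) (hk₀ k hk)

end Pool.Agent.Y793
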