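import Mathlib
import Pool.Agent.Y793.E.Stm
import Pool.Agent.Y241.WR.Ext

set_option autoImplicit false

namespace Pool.Agent.Y793

open Polynomial Pool.Agent.Y241.WR

theorem starL : St_starL := by
  intro K L Z _ _ _ _ _ _ _ _
  by_contra hcon
  push Not at hcon
  choose z a ha hz using hcon
  have hsgn : ∀ (t : K) (γ : Z ≃ₐ[RatFunc L] Z), γ (z t) = z t ∨ γ (z t) = -z t := by
    intro t γ
    have h1 : (γ (z t)) ^ 2 = (z t) ^ 2 := by
      rw [← map_pow, hz, AlgEquiv.commutes]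
    exact sq_eq_sq_iff_eq_or_eq_neg.1 h1
  classical
  obtain ⟨t₀, t₁, hne, hf⟩ := Finite.exists_ne_map_eq_of_infinite
    (fun (t : K) (γ : Z ≃ₐ[RatFunc L] Z) => decide (γ (z t) = z t))
  have hprod : ∀ γ : Z ≃ₐ[RatFunc L] Z, γ (z t₀ * z t₁) = z t₀ * z t₁ := by
    intro γ
    have h1 := congrFun hf γ
    simp only [decide_eq_decide] at h1
    rw [map_mul]
    rcases hsgn t₀ γ with h0 | h0
    · rw [h0, h1.1 h0]
    · rcases hsgn t₁ γ with h2 | h2
      · rw [h1.2 h2, h2]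
      · rw [h0, h2, neg_mul_neg]
  have h2 : z t₀ * z t₁ ∈ (⊥ : IntermediateField (RatFunc L) Z) :=
    (IsGalois.mem_bot_iff_fixed _).2 hprod
  obtain ⟨u, hu⟩ := IntermediateField.mem_bot.1 h2
  refine not_sq (algebraMap K L t₀) (algebraMap K L t₁) (a t₀ * a t₁) (mul_ne_zero (ha _) (ha _))
    (fun h => hne ((algebraMap K L).injective h)) u ?_
  apply (algebraMap (RatFunc L) Z).injective
  rw [map_pow, hu, mul_pow, hz, hz, ← map_mul, map_mul RatFunc.C]
  congr 1
  ring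

end Pool.Agent.Y793
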