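import Mathlib
import Pool.Agent.Y793.E.App
import Pool.Agent.Y793.E.Star
import Pool.Agent.Y576.AE.Ari

set_option autoImplicit false

namespace Pool.Agent.Y793

open Pool.Agent.H391R2 Pool.Agent.H391R2.T4

theorem mainL : St_mainL :=
  mainL_of Y203.J.t_gen Y203.J.t_iso Y241.WR.t_ext Y241.WR.t_grp Y590.IG.t_evn
    Y203.J.Cyc.t_cyc Y576.AE.Ari.t_arithL starL Y203.J.t_data

theorem hil_regL (K L X : Type) [Field K] [Field L] [Algebra K L] [FiniteDimensional K L]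
    [IsGalois K L] [Group X] [Finite X] (π : X →* (L ≃ₐ[K] L)) (hK : HilbField K)
    (h : RegSol K L X π) : SolOver K L X π K False := by
  obtain ⟨F, i1, i2, i3, i4, i5, i6, i7, i8, γ, hγ, -⟩ := h
  obtain ⟨F', j1, j2, j3, j4, j5, j6, γ', hγ'⟩ := H33.hilbert_spec K hK L X π
    ⟨F, i1, i2, i3, i4, i5, i6, i7, i8, γ, hγ⟩
  refine ⟨F', j1, j2, j3, j2, inferInstance, j4, j5, j6, γ', ?_, fun h => h.elim⟩
  intro σ x
  rw [hγ', AlgEquiv.restrictNormal_commutes]

section fin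

variable (K L E : Type) [Field K] [CharZero K] [Field L] [Algebra K L]
    [FiniteDimensional K L] [IsGalois K L] [Group E] [Finite E]
    (α : E →* (L ≃ₐ[K] L))

instance finite_wrx (G Γ : Type) [Group G] [Group Γ] [Finite G] [Finite Γ] (n : ℕ) :
    Finite (Wr G n × Γ) := by
  have h1 : Finite (Wr G n) := finite_wr G n
  exact inferInstance

theorem reg_tower (hw : WeakSol K L E α) (hperf : commutator α.ker = ⊤)
    (χ : (L ≃ₐ[K] L) →* ℤˣ) (n : ℕ) (hn : ((3 * Nat.card α.ker + 2).factorial) ^ 3 ≤ n) :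
    ∃ k₀ : ℕ, ∀ k ≥ k₀, RegSol K L (AltEP (twProj α χ n) (8 * k + 4))
      (altProj (twProj α χ n) (8 * k + 4)) :=
  alt_tower mainL K L E α hw hperf χ n hn

theorem hil_tower (hK : HilbField K) (hw : WeakSol K L E α) (hperf : commutator α.ker = ⊤)
    (χ : (L ≃ₐ[K] L) →* ℤˣ) (n : ℕ) (hn : ((3 * Nat.card α.ker + 2).factorial) ^ 3 ≤ n) :
    ∃ k₀ : ℕ, ∀ k ≥ k₀, SolOver K L (AltEP (twProj α χ n) (8 * k + 4))
      (altProj (twProj α χ n) (8 * k + 4)) K False := by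
  obtain ⟨k₀, hk₀⟩ := reg_tower K L E α hw hperf χ n hn
  refine ⟨k₀, fun k hk => ?_⟩
  have h1 : Finite (AltTw α χ n) := inferInstance
  have h2 : Finite (AltEP (twProj α χ n) (8 * k + 4)) := inferInstance
  exact hil_regL K L _ _ hK (hk₀ k hk)

end fin

end Pool.Agent.Y793
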