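import Mathlib
import Pool.Agent.Y793.E.All
import Pool.Agent.TH59.WX.UG
import Pool.Agent.H391R2.T4.Abl

/-!
A closure property of the class of the Galois groups over a Hilbertian field.
-/

set_option autoImplicit false
set_option linter.unusedSectionVars false
set_option linter.unusedSimpArgs false

namespace Pool.Agent.Y793

open Nfff32c05 Pool.Agent.H391R2 Pool.Agent.H391R2.T4

section congr

variable {Γ Δ G H : Type} [Group Γ] [Group Δ] [Group G] [Group H]

/-- Alternating fibre powers of isomorphic homomorphisms, with different targets. -/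
def altCongr2 (α : G →* Γ) (β : H →* Δ) (e : G ≃* H) (f : Γ ≃* Δ) (he : ∀ g, β (e g) = f (α g))
    (n : ℕ) : AltEP α n ≃* AltEP β n where
  toFun z := ⟨(wrCongr e n z.1.1, f z.1.2), Subgroup.mem_inf.2 ⟨fun i => by
    change β (e (z.1.1.left i)) = f z.1.2
    rw [he]
    exact congrArg f ((Subgroup.mem_inf.1 z.2).1 i), (Subgroup.mem_inf.1 z.2).2⟩⟩
  invFun z := ⟨((wrCongr e n).symm z.1.1, f.symm z.1.2), Subgroup.mem_inf.2 ⟨fun i => by
    change α (e.symm (z.1.1.left i)) = f.symm z.1.2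
    apply f.injective
    rw [← he, e.apply_symm_apply, f.apply_symm_apply]
    exact (Subgroup.mem_inf.1 z.2).1 i, (Subgroup.mem_inf.1 z.2).2⟩⟩
  left_inv z := Subtype.ext (Prod.ext ((wrCongr e n).symm_apply_apply _) (f.symm_apply_apply _))
  right_inv z := Subtype.ext (Prod.ext ((wrCongr e n).apply_symm_apply _) (f.apply_symm_apply _))
  map_mul' z w := Subtype.ext (Prod.ext ((wrCongr e n).map_mul _ _) (f.map_mul _ _))

/-- Twisted fibre powers of isomorphic homomorphisms, with different targets. -/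
def twCongr2 (α : G →* Γ) (β : H →* Δ) (e : G ≃* H) (f : Γ ≃* Δ) (he : ∀ g, β (e g) = f (α g))
    (χ : Γ →* ℤˣ) (ψ : Δ →* ℤˣ) (hψ : ∀ ρ, ψ (f ρ) = χ ρ) (n : ℕ) :
    AltTw α χ n ≃* AltTw β ψ n where
  toFun z := ⟨(wrCongr e n z.1.1, f z.1.2), Subgroup.mem_inf.2 ⟨fun i => by
    change β (e (z.1.1.left i)) = f z.1.2
    rw [he]
    exact congrArg f ((Subgroup.mem_inf.1 z.2).1 i), by
    change Equiv.Perm.sign z.1.1.right = ψ (f z.1.2)
    rw [hψ]
    exact (Subgroup.mem_inf.1 z.2).2⟩⟩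
  invFun z := ⟨((wrCongr e n).symm z.1.1, f.symm z.1.2), Subgroup.mem_inf.2 ⟨fun i => by
    change α (e.symm (z.1.1.left i)) = f.symm z.1.2
    apply f.injective
    rw [← he, e.apply_symm_apply, f.apply_symm_apply]
    exact (Subgroup.mem_inf.1 z.2).1 i, by
    change Equiv.Perm.sign z.1.1.right = χ (f.symm z.1.2)
    rw [← hψ, f.apply_symm_apply]
    exact (Subgroup.mem_inf.1 z.2).2⟩⟩
  left_inv z := Subtype.ext (Prod.ext ((wrCongr e n).symm_apply_apply _) (f.symm_apply_apply _))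
  right_inv z := Subtype.ext (Prod.ext ((wrCongr e n).apply_symm_apply _) (f.apply_symm_apply _))
  map_mul' z w := Subtype.ext (Prod.ext ((wrCongr e n).map_mul _ _) (f.map_mul _ _))

end congr

theorem real_tower (K : Type) [Field K] [CharZero K] (hK : HilbField K) (Γ B : Type) [Group Γ]
    [Finite Γ] [Group B] [Finite B] (α : B →* Γ) (s : Γ →* B) (hs : ∀ ρ, α (s ρ) = ρ)
    (hperf : commutator α.ker = ⊤) (χ : Γ →* ℤˣ) (n : ℕ)
    (hn : ((3 * Nat.card α.ker + 2).factorial) ^ 3 ≤ n) (h : IsRealizable K Γ) :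
    ∃ k₀ : ℕ, ∀ k ≥ k₀, IsRealizable K (AltEP (twProj α χ n) (8 * k + 4)) := by
  obtain ⟨L, i1, i2, i3, i4, ⟨f⟩⟩ := Pool.Agent.TH59.WX.exists_gal_of K Γ h
  let α' : B →* (L ≃ₐ[K] L) := f.toMonoidHom.comp α
  have hker : α'.ker = α.ker := by
    ext x
    rw [MonoidHom.mem_ker, MonoidHom.mem_ker]
    change f (α x) = 1 ↔ _
    rw [map_eq_one_iff f f.injective]
  have hperf' : commutator α'.ker = ⊤ := by
    rw [hker]
    exact hperf
  have hn' : ((3 * Nat.card α'.ker + 2).factorial) ^ 3 ≤ n := by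
    rw [hker]
    exact hn
  have hw : WeakSol K L B α' := weakSol_of_split K L B α' (s.comp f.symm.toMonoidHom) (fun ρ => by
    change f (α (s (f.symm ρ))) = ρ
    rw [hs, f.apply_symm_apply])
  obtain ⟨k₀, hk₀⟩ := hil_tower K L B α' hK hw hperf' (χ.comp f.symm.toMonoidHom) n hn'
  refine ⟨k₀, fun k hk => ?_⟩
  obtain ⟨F', j1, j2, j3, j4, j5, j6, j7, j8, γ, -⟩ := hk₀ k hk
  let e := twCongr2 α α' (MulEquiv.refl B) f (fun g => rfl) χ (χ.comp f.symm.toMonoidHom)
    (fun ρ => by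
      change χ (f.symm (f ρ)) = χ ρ
      rw [f.symm_apply_apply]) n
  let e2 := altCongr2 (twProj α χ n) (twProj α' (χ.comp f.symm.toMonoidHom) n) e f
    (fun g => rfl) (8 * k + 4)
  exact ⟨⟨⟨F', j1, j2, j8, (γ.trans e2.symm).symm⟩⟩⟩

end Pool.Agent.Y793
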