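import Mathlib
import Pool.Agent.Y793.E.Real
import Pool.Agent.Y793.Ml

/-!
Small faithful permutation representations of the alternating fibre powers.
-/

set_option autoImplicit false
set_option linter.unusedSectionVars false
set_option linter.unusedSimpArgs false

namespace Pool.Agent.Y793

open Nfff32c05 Pool.Agent.H391R2 Pool.Agent.H391R2.T4

/-- The stabilizer of a point in a faithful transitive action. -/
theorem core_of_action (H X : Type) [Group H] [Finite X] [MulAction H X] (x₀ : X)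
    (htrans : ∀ x : X, ∃ h : H, h • x₀ = x) (hfaith : ∀ h : H, (∀ x : X, h • x = x) → h = 1) :
    ∃ U : Subgroup H, U.normalCore = ⊥ ∧ U.index ≤ Nat.card X := by
  refine ⟨MulAction.stabilizer H x₀, ?_, ?_⟩
  · rw [eq_bot_iff]
    intro x hx
    rw [Subgroup.mem_bot]
    apply hfaith
    intro y
    obtain ⟨w, rfl⟩ := htrans y
    have h1 : w⁻¹ * x * w ∈ MulAction.stabilizer H x₀ := by
      have := hx w⁻¹
      simpa using this
    rw [MulAction.mem_stabilizer_iff, mul_smul, mul_smul, inv_smul_eq_iff] at h1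
    exact h1
  · rw [MulAction.index_stabilizer]
    refine (Set.ncard_le_ncard (Set.subset_univ _) Set.finite_univ).trans ?_
    rw [Set.ncard_univ]

/-- The imprimitive action of a wreath product. -/
@[reducible] def wrActX (W X : Type) [Group W] [MulAction W X] (m : ℕ) :
    MulAction (Wr W m) (X × Fin m) where
  smul w x := (w.left (w.right x.2) • x.1, w.right x.2)
  one_smul x := by
    refine Prod.ext ?_ rfl
    exact one_smul W x.1
  mul_smul v w x := by
    refine Prod.ext ?_ rfl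
    change (v * w).left ((v * w).right x.2) • x.1 =
      v.left (v.right (w.right x.2)) • w.left (w.right x.2) • x.1
    rw [wr_mul_left, wr_mul_right, mul_smul]
    simp [Equiv.Perm.mul_apply]

section act

variable {Γ B : Type} [Group Γ] [Group B] (α : B →* Γ) (χ : Γ →* ℤˣ) (n m : ℕ)

theorem exists_sign {n : ℕ} (hn : 4 ≤ n) (e : ℤˣ) (i j : Fin n) :
    ∃ σ : Equiv.Perm (Fin n), Equiv.Perm.sign σ = e ∧ σ i = j := by
  obtain ⟨σ, h1, h2⟩ := exists_even (by omega : 3 ≤ n) i j
  rcases Int.units_eq_one_or e with rfl | rfl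
  · exact ⟨σ, h1, h2⟩
  · obtain ⟨a, b, hab, hai, hbi⟩ : ∃ a b : Fin n, a ≠ b ∧ a ≠ i ∧ b ≠ i := by
      have h3 : 2 ≤ (Finset.univ.erase i).card := by
        rw [Finset.card_erase_of_mem (Finset.mem_univ _), Finset.card_univ, Fintype.card_fin]
        omega
      obtain ⟨a, b, ha, hb, hab⟩ := Finset.one_lt_card_iff.1 (by omega :
        1 < (Finset.univ.erase i).card)
      exact ⟨a, b, hab, (Finset.mem_erase.1 ha).1, (Finset.mem_erase.1 hb).1⟩
    refine ⟨σ * Equiv.swap a b, ?_, ?_⟩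
    · rw [map_mul, h1, Equiv.Perm.sign_swap hab, one_mul]
    · rw [Equiv.Perm.mul_apply, Equiv.swap_apply_of_ne_of_ne (Ne.symm hai) (Ne.symm hbi), h2]

theorem ep_core [Finite B] (hn : 4 ≤ n) (hm : 4 ≤ m) :
    ∃ U : Subgroup (AltEP (twProj α χ n) m), U.normalCore = ⊥ ∧
      U.index ≤ Nat.card B * n * m := by
  classical
  letI a1 : MulAction (Wr B n) (B × Fin n) := TH444.ML.wrAct B n
  letI a2 : MulAction (AltTw α χ n) (B × Fin n) :=
    MulAction.compHom _ ((MonoidHom.fst (Wr B n) Γ).comp (AltTw α χ n).subtype)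
  letI a3 : MulAction (Wr (AltTw α χ n) m) ((B × Fin n) × Fin m) :=
    wrActX (AltTw α χ n) (B × Fin n) m
  letI a4 : MulAction (AltEP (twProj α χ n) m) ((B × Fin n) × Fin m) :=
    MulAction.compHom _ ((MonoidHom.fst (Wr (AltTw α χ n) m) Γ).comp
      (AltEP (twProj α χ n) m).subtype)
  have hdef : ∀ (z : AltEP (twProj α χ n) m) (x : (B × Fin n) × Fin m), z • x =
      (((z.1.1.left (z.1.1.right x.2)).1.1.left ((z.1.1.left (z.1.1.right x.2)).1.1.right x.1.2)
        * x.1.1, (z.1.1.left (z.1.1.right x.2)).1.1.right x.1.2), z.1.1.right x.2) :=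
    fun _ _ => rfl
  let i₀ : Fin n := ⟨0, by omega⟩
  let j₀ : Fin m := ⟨0, by omega⟩
  obtain ⟨U, h1, h2⟩ := core_of_action (AltEP (twProj α χ n) m) ((B × Fin n) × Fin m)
    ((1, i₀), j₀) (by
    rintro ⟨⟨b, i⟩, j⟩
    obtain ⟨τ, ht1, ht2⟩ := exists_sign hn (χ (α b)) i₀ i
    obtain ⟨σ, hs1, hs2⟩ := exists_even (by omega : 3 ≤ m) j₀ j
    let y : AltTw α χ n := ⟨((⟨fun _ => b, τ⟩ : Wr B n), α b),
      Subgroup.mem_inf.2 ⟨fun _ => rfl, ht1⟩⟩
    refine ⟨⟨((⟨fun _ => y, σ⟩ : Wr (AltTw α χ n) m), α b),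
      Subgroup.mem_inf.2 ⟨fun _ => rfl, hs1⟩⟩, ?_⟩
    rw [hdef]
    refine Prod.ext (Prod.ext ?_ ?_) ?_
    · exact mul_one b
    · exact ht2
    · exact hs2) (by
    intro z hz
    have hr : z.1.1.right = 1 := by
      ext j
      have := congrArg (fun x : (B × Fin n) × Fin m => (x.2 : ℕ)) (hz ((1, i₀), j))
      simpa [hdef] using this
    have hl : ∀ j, (z.1.1.left j).1.1 = 1 := by
      intro j
      have hr2 : (z.1.1.left j).1.1.right = 1 := by
        ext i
        have := congrArg (fun x : (B × Fin n) × Fin m => (x.1.2 : ℕ)) (hz ((1, i), j))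
        rw [hdef, hr] at this
        simpa using this
      apply SemidirectProduct.ext
      · funext i
        have := congrArg (fun x : (B × Fin n) × Fin m => x.1.1) (hz ((1, i), j))
        rw [hdef, hr] at this
        simp only [Equiv.Perm.one_apply, mul_one, hr2] at this
        exact this
      · exact hr2
    have hρ : z.1.2 = 1 := by
      have h3 : twProj α χ n (z.1.1.left j₀) = z.1.2 := (Subgroup.mem_inf.1 z.2).1 j₀
      have h4 : α ((z.1.1.left j₀).1.1.left i₀) = (z.1.1.left j₀).1.2 :=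
        (Subgroup.mem_inf.1 (z.1.1.left j₀).2).1 i₀
      rw [← h3]
      change (z.1.1.left j₀).1.2 = 1
      rw [← h4, hl j₀]
      exact map_one α
    have hl2 : ∀ j, z.1.1.left j = 1 := by
      intro j
      apply Subtype.ext
      refine Prod.ext (hl j) ?_
      have h3 : twProj α χ n (z.1.1.left j) = z.1.2 := (Subgroup.mem_inf.1 z.2).1 j
      rw [hρ] at h3
      exact h3
    apply Subtype.ext
    refine Prod.ext ?_ hρ
    apply SemidirectProduct.ext
    · funext j
      exact hl2 j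
    · exact hr)
  refine ⟨U, h1, h2.trans_eq ?_⟩
  rw [Nat.card_prod, Nat.card_prod, Nat.card_fin, Nat.card_fin]

theorem ep_card [Finite B] [Finite Γ] (hm : 2 ≤ m) :
    m.factorial ≤ 2 * Nat.card (AltEP (twProj α χ n) m) := by
  have hf : Finite (AltTw α χ n) := inferInstance
  have hf2 : Finite (AltEP (twProj α χ n) m) := inferInstance
  have : Nontrivial (Fin m) := Fin.nontrivial_iff_two_le.2 hm
  have h1 : Nat.card (alternatingGroup (Fin m)) * 2 = m.factorial := by
    have := (alternatingGroup (Fin m)).card_mul_index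
    rw [alternatingGroup.index_eq_two, Nat.card_perm, Nat.card_fin] at this
    exact this
  have h2 : Nat.card (alternatingGroup (Fin m)) ≤ Nat.card (AltEP (twProj α χ n) m) := by
    let f : alternatingGroup (Fin m) → AltEP (twProj α χ n) m := fun σ =>
      ⟨((⟨1, σ.1⟩ : Wr (AltTw α χ n) m), 1), Subgroup.mem_inf.2 ⟨fun _ => map_one _,
        Equiv.Perm.mem_alternatingGroup.1 σ.2⟩⟩
    apply Nat.card_le_card_of_injective f
    intro σ τ h
    have h3 : (f σ).1.1.right = (f τ).1.1.right := by rw [h]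
    exact Subtype.ext h3
  omega

theorem num_bound {c m : ℕ} (hc : 1 ≤ c) (hm : 128 * c ^ 2 + 3 ≤ m) :
    2 * (8 * (c * m) * (c * m + 1)) ≤ m.factorial := by
  obtain ⟨r, rfl⟩ : ∃ r, m = r + 2 := ⟨m - 2, by omega⟩
  have h1 : (r + 2).factorial = (r + 2) * ((r + 1) * r.factorial) := by
    rw [Nat.factorial_succ, Nat.factorial_succ]
  have h2 : r ≤ r.factorial := Nat.self_le_factorial r
  have h3 : 128 * c ^ 2 ≤ r := by omega
  rw [h1]
  have h4 : 2 * (8 * (c * (r + 2)) * (c * (r + 2) + 1)) ≤ (r + 2) * (32 * c ^ 2 * (r + 2)) := by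
    have : 1 ≤ c * (r + 2) := Nat.one_le_iff_ne_zero.2 (by positivity)
    nlinarith
  refine h4.trans (Nat.mul_le_mul_left _ ?_)
  calc 32 * c ^ 2 * (r + 2) ≤ (r + 1) * (128 * c ^ 2) := by nlinarith [sq_nonneg c]
    _ ≤ (r + 1) * r.factorial := Nat.mul_le_mul_left _ (h3.trans h2)

end act

theorem ep_data (K : Type) [Field K] [NumberField K] (Γ B : Type) [Group Γ]
    [Finite Γ] [Group B] [Finite B] (α : B →* Γ) (s : Γ →* B) (hs : ∀ ρ, α (s ρ) = ρ)
    (hperf : commutator α.ker = ⊤) (χ : Γ →* ℤˣ) (n : ℕ)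
    (hn : ((3 * Nat.card α.ker + 2).factorial) ^ 3 ≤ n) (h : IsRealizable K Γ) :
    ∃ k₀ : ℕ, ∀ k ≥ k₀, Finite (AltEP (twProj α χ n) (8 * k + 4)) ∧
      2 ≤ Nat.card (AltEP (twProj α χ n) (8 * k + 4)) ∧
      (∃ U : Subgroup (AltEP (twProj α χ n) (8 * k + 4)), U.normalCore = ⊥ ∧
        8 * U.index * (U.index + 1) ≤ Nat.card (AltEP (twProj α χ n) (8 * k + 4))) ∧
      (TH444.ML.Gal K (AlgebraicClosure K) (AltEP (twProj α χ n) (8 * k + 4))).Nonempty := by
  obtain ⟨k₀, hk₀⟩ := real_tower K (hilb_numberField K) Γ B α s hs hperf χ n hn h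
  have hn5 : 5 ≤ n := by
    have h1 : 0 < Nat.card α.ker := Nat.card_pos
    have h2 : 5 ≤ (3 * Nat.card α.ker + 2).factorial :=
      le_trans (by omega) (Nat.self_le_factorial _)
    calc 5 ≤ (3 * Nat.card α.ker + 2).factorial ^ 1 := by rw [pow_one]; exact h2
      _ ≤ (3 * Nat.card α.ker + 2).factorial ^ 3 :=
        Nat.pow_le_pow_right (by omega) (by omega)
      _ ≤ n := hn
  refine ⟨max k₀ (128 * (Nat.card B * n) ^ 2 + 3), fun k hk => ?_⟩
  have hk1 : k₀ ≤ k := le_trans (le_max_left _ _) hk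
  have hk2 : 128 * (Nat.card B * n) ^ 2 + 3 ≤ k := le_trans (le_max_right _ _) hk
  have hf : Finite (AltTw α χ n) := inferInstance
  have hf2 : Finite (AltEP (twProj α χ n) (8 * k + 4)) := inferInstance
  have hc1 : 1 ≤ Nat.card B * n := by
    have : 0 < Nat.card B := Nat.card_pos
    exact Nat.one_le_iff_ne_zero.2 (by positivity)
  have h1 := ep_card α χ n (8 * k + 4) (by omega)
  have h2 := num_bound hc1 (by omega : 128 * (Nat.card B * n) ^ 2 + 3 ≤ 8 * k + 4)
  have h3 : 1 ≤ Nat.card B * n * (8 * k + 4) := Nat.one_le_iff_ne_zero.2 (by positivity)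
  refine ⟨hf2, by nlinarith, ?_, ?_⟩
  · obtain ⟨U, hU1, hU2⟩ := ep_core α χ n (8 * k + 4) (by omega) (by omega)
    refine ⟨U, hU1, ?_⟩
    have h4 : 8 * U.index * (U.index + 1) ≤ 8 * (Nat.card B * n * (8 * k + 4)) *
        (Nat.card B * n * (8 * k + 4) + 1) := by
      gcongr
    omega
  · obtain ⟨L, i1, i2, i3, i4, he⟩ := Pool.Agent.TH59.WX.exists_gal_of K _ (hk₀ k hk1)
    exact gal_of_real K (AlgebraicClosure K) _ ⟨L, i1, i2, i4, he⟩

end Pool.Agent.Y793
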